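import Pool.Agent.MP_83e673_co.H84.Main

set_option autoImplicit false

namespace Pool.Agent.Results.MP_83e673_co.Subsets

open Pool.Agent.MP_83e673_co.H84

/-- the cube-like graph of a family of nonempty subsets -/
def cubeLike {X : Type} (H : Set (Set X)) (hH : ∀ h ∈ H, h.Nonempty) : SimpleGraph (Set X) where
  Adj A B := symmDiff A B ∈ H
  symm := ⟨fun A B h => by rwa [symmDiff_comm]⟩
  loopless := ⟨fun A h => by simpa using hH _ h⟩

/-- `m` is the chromatic number of a cube-like graph on a finite ground set -/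
def Attained (m : ℕ) : Prop :=
  ∃ (X : Type) (H : Set (Set X)) (hH : ∀ h ∈ H, h.Nonempty), Finite X ∧
    (cubeLike H hH).chromaticNumber = (m : ℕ∞)

/-- vectors over the field with two elements as subsets -/
noncomputable def toSet {X : Type} {d : ℕ} (e : X ≃ Fin d) : (Fin d → ZMod 2) ≃ Set X :=
  Equiv.ofBijective (fun x => {a | x (e a) = 1}) ⟨fun x y h => funext fun i => by
      have := Set.ext_iff.mp h (e.symm i)
      simp only [Set.mem_ofPred_eq, Equiv.apply_symm_apply] at this
      revert this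
      generalize x i = a
      generalize y i = b
      revert a b
      decide,
    fun A => by
      classical
      exact ⟨fun i => if e.symm i ∈ A then 1 else 0, by ext a; simp⟩⟩

lemma toSet_add {X : Type} {d : ℕ} (e : X ≃ Fin d) (x y : Fin d → ZMod 2) :
    toSet e (x + y) = symmDiff (toSet e x) (toSet e y) := by
  ext a
  simp only [toSet, Equiv.ofBijective_apply, Set.mem_symmDiff, Set.mem_ofPred_eq, Pi.add_apply]
  generalize x (e a) = p
  generalize y (e a) = q
  revert p q
  decide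

lemma chrom_eq {X : Type} {d : ℕ} (e : X ≃ Fin d) (H : Set (Set X)) (hH : ∀ h ∈ H, h.Nonempty)
    (S : Set (Fin d → ZMod 2)) (hS : ∀ x, toSet e x ∈ H ↔ x ∈ S ∧ (toSet e x).Nonempty) :
    (SimpleGraph.fromRel fun x y : Fin d → ZMod 2 => x + y ∈ S).chromaticNumber =
      (cubeLike H hH).chromaticNumber := by
  refine SimpleGraph.chromaticNumber_congr ⟨toSet e, fun {x y} => ?_⟩
  simp only [cubeLike, SimpleGraph.fromRel_adj, add_comm y x, or_self]
  rw [← toSet_add, hS, toSet_add, Set.nonempty_iff_ne_empty, and_comm, Ne, ← Set.bot_eq_empty,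
    symmDiff_eq_bot, (toSet e).injective.eq_iff]

lemma attained_iff (m : ℕ) : Attained m ↔ Att m := by
  constructor
  · rintro ⟨X, H, hH, hX, h⟩
    refine ⟨Nat.card X, toSet (Finite.equivFin X) ⁻¹' H, ?_⟩
    exact (chrom_eq (Finite.equivFin X) H hH (toSet (Finite.equivFin X) ⁻¹' H)
      fun x => ⟨fun h => ⟨h, hH _ h⟩, fun h => h.1⟩).trans h
  · rintro ⟨d, S, h⟩
    refine ⟨Fin d, {A | (toSet (Equiv.refl _)).symm A ∈ S ∧ A.Nonempty}, fun _ h => h.2,
      inferInstance, ?_⟩
    rw [← chrom_eq (Equiv.refl _) _ _ S fun x => by simp, h]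

theorem result : ∃ f : ℕ → ℕ, (∀ n, 2 ^ n ≤ 2 * f n + 4) ∧ ∀ m : ℕ, 0 < m →
    (Attained m ↔ ∃ n : ℕ, (2 : ℤ) ^ n - f n ≤ m ∧ m ≤ 2 ^ n) := by
  obtain ⟨f, hf⟩ := main
  refine ⟨fun n => max (f n) (2 ^ (n - 1) - 2), fun n => ?_, fun m hm => ?_⟩
  · cases n with
    | zero => omega
    | succ n =>
      simp only [Nat.add_sub_cancel, pow_succ]
      omega
  · have c : ∀ n k : ℕ, (2 : ℤ) ^ n - k ≤ m ↔ 2 ^ n - k ≤ m := fun n k => by
      have : ((2 ^ n : ℕ) : ℤ) = 2 ^ n := by simp
      omega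
    simp only [attained_iff, c]
    refine ⟨fun h => ?_, ?_⟩
    · obtain ⟨n, h1, h2⟩ := (hf m hm).mp h
      exact ⟨n, by omega, h2⟩
    · rintro ⟨n, h1, h2⟩
      by_cases h3 : 2 ^ n - f n ≤ m
      · exact (hf m hm).mpr ⟨n, h3, h2⟩
      · obtain ⟨m, rfl⟩ : ∃ k, m = k + 1 := ⟨m - 1, by omega⟩
        cases n with
        | zero => omega
        | succ n =>
          refine att_of_att1 (att1_block (n := n) ?_ h2)
          simp only [Nat.add_sub_cancel, pow_succ] at h1 h3
          omega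

end Pool.Agent.Results.MP_83e673_co.Subsets
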